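import Pool.Agent.Q32.SK.Fin

/-!
# MP_f234cd_al: quadratic growth of the largest k-set stabiliser in k-sharp actions

For every prime `p` there is a `p`-sharp action of a countable group on a countably infinite set
which is transitive on `p`-subsets and in which the setwise stabiliser of a `p`-subset is the affine
group `AGL(1, p)`, of order `p (p - 1)`.  So `k! / τ'(k) ≥ k² / 2` for all primes `k`.

The action is constructed on a structure with a `p`-ary relation whose restriction to each
`p`-subset is an orbit of orderings under `AGL(1, p)`; the group is a limit of groups obtained by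
adding new free orbits of points and generic permutations which map one `p`-tuple to another.
-/

set_option autoImplicit false

namespace Pool.Agent.Results.MP_f234cd_al.QuadraticStabilisers

open Function

/-- The action of `G` on `U` is `k`-sharp (only `1` fixes `k` distinct points) and transitive on the
subsets with `k` elements. -/
def SharpSetTransitive (k : ℕ) (G U : Type) [Group G] [MulAction G U] : Prop :=
  (∀ (g : G) (a : Fin k → U), Injective a → (∀ i, g • a i = a i) → g = 1) ∧
  ∀ A B : Finset U, A.card = k → B.card = k → ∃ g : G, ∀ x, x ∈ A ↔ g • x ∈ B

/-- `τ'(k)`: the least number of orbits on `k`-tuples of distinct points, over all `k`-sharp actions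
on countably infinite sets which are transitive on `k`-subsets -/
noncomputable def tauPrime (k : ℕ) : ℕ :=
  sInf {n | ∃ (G U : Type) (_ : Group G) (_ : MulAction G U) (_ : Countable U) (_ : Infinite U),
    SharpSetTransitive k G U ∧ Nat.card (MulAction.orbitRel.Quotient G (Fin k ↪ U)) = n}

theorem result : ∃ X : Set ℕ, X.Infinite ∧ ∃ c C : ℝ, 1 < c ∧ 0 < C ∧
    ∀ k ∈ X, C * (k : ℝ) ^ c ≤ (k.factorial : ℝ) / (tauPrime k : ℝ) :=
  Q32.SK.finA

end Pool.Agent.Results.MP_f234cd_al.QuadraticStabilisers
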